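import Pool.Agent.N328.LF.Defs
import Pool.Agent.H160R2.HF.Final

/-!
Project LF (helper328), part STR (helper622): structure of the lift of a bridgeless cubic graph.
-/

set_option autoImplicit false
set_option linter.unusedSectionVars false

namespace Pool.Agent.N622.LF

open Finset Pool.Agent.H160R2.HF Pool.Agent.N328.LF

variable {V E : Type} [Fintype V] [Fintype E] [DecidableEq V] [DecidableEq E]

theorem deg_lift (B : OrGraph V E) (F : Finset E) {N : ℕ} (p : E → Equiv.Perm (Fin N))
    (x : V × Fin N) : (lift B p).deg (F ×ˢ univ) x = B.deg F x.1 := by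
  obtain ⟨v, i⟩ := x
  unfold OrGraph.deg
  congr 1
  · have h : ((F ×ˢ (univ : Finset (Fin N))).filter (fun e => (lift B p).t e = (v, i))) =
        (F.filter (fun e => B.t e = v)).image (fun e => (e, i)) := by
      ext ⟨e, j⟩
      simp only [mem_filter, mem_product, mem_univ, and_true, lift, Prod.mk.injEq, mem_image]
      constructor
      · rintro ⟨h1, h2, h3⟩
        exact ⟨e, ⟨h1, h2⟩, rfl, h3.symm⟩
      · rintro ⟨e', ⟨h1, h2⟩, rfl, h3⟩
        exact ⟨h1, h2, h3.symm⟩
    rw [h, card_image_of_injective _ (fun a b h => (Prod.mk.inj h).1)]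
  · have h : ((F ×ˢ (univ : Finset (Fin N))).filter (fun e => (lift B p).h e = (v, i))) =
        (F.filter (fun e => B.h e = v)).image (fun e => (e, (p e).symm i)) := by
      ext ⟨e, j⟩
      simp only [mem_filter, mem_product, mem_univ, and_true, lift, Prod.mk.injEq, mem_image]
      constructor
      · rintro ⟨h1, h2, h3⟩
        exact ⟨e, ⟨h1, h2⟩, rfl, by rw [← h3, Equiv.symm_apply_apply]⟩
      · rintro ⟨e', ⟨h1, h2⟩, rfl, h3⟩
        exact ⟨h1, h2, by rw [← h3, Equiv.apply_symm_apply]⟩
    rw [h, card_image_of_injective _ (fun a b h => (Prod.mk.inj h).1)]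

theorem noloop (G : OrGraph V E) (hc : G.Cubic) (hb : G.Bridgeless) (e : E) : G.t e ≠ G.h e := by
  intro he
  have h := G.handshake univ {G.t e}
  rw [sum_singleton, hc, inter_univ] at h
  have h1 := G.cut_card_ne_one hb {G.t e}
  have h2 : e ∈ univ.filter (fun e' => G.t e' ∈ ({G.t e} : Finset V) ∧
      G.h e' ∈ ({G.t e} : Finset V)) := by
    rw [mem_filter]
    exact ⟨mem_univ _, mem_singleton_self _, mem_singleton.2 he.symm⟩
  have h3 := card_pos.2 ⟨e, h2⟩
  omega

theorem str (V E : Type) [Fintype V] [Fintype E] [DecidableEq V] [DecidableEq E]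
    (B : OrGraph V E) (hc : B.Cubic) (hb : B.Bridgeless) (F : Finset E) (hF : B.IsTwoFactor F)
    (h3 : ∀ X : Finset V, (B.cut X).card = 3 → (B.cut X ∩ F).Nonempty)
    (N : ℕ) (p : E → Equiv.Perm (Fin N)) :
    (lift B p).Cubic ∧ (lift B p).IsTwoFactor (F ×ˢ univ) ∧
      ∀ X : Finset (V × Fin N), (lift B p).cut X ∩ (F ×ˢ univ) = ∅ → Odd X.card → 5 ≤ X.card := by
  refine ⟨fun x => ?_, fun x => ?_, ?_⟩
  · have h := deg_lift B univ p x
    rw [univ_product_univ] at h
    rw [h]
    exact hc x.1
  · rw [deg_lift]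
    exact hF x.1
  · intro X hcut hodd
    by_contra hlt
    push Not at hlt
    set c : V → ℕ := fun v => (X.filter (fun a => a.1 = v)).card with hcdef
    have hX : X.card = ∑ v, c v :=
      card_eq_sum_card_fiberwise (f := Prod.fst) (t := univ) (fun _ _ => mem_univ _)
    have hiff : ∀ e ∈ F, ∀ i, ((B.t e, i) ∈ X ↔ (B.h e, p e i) ∈ X) := by
      intro e he i
      by_contra hcon
      have : (e, i) ∈ (lift B p).cut X ∩ (F ×ˢ univ) := by
        rw [mem_inter, mem_product, OrGraph.cut, mem_filter]
        exact ⟨⟨mem_univ _, hcon⟩, he, mem_univ _⟩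
      rw [hcut] at this
      exact notMem_empty _ this
    have hcF : ∀ e ∈ F, c (B.t e) = c (B.h e) := by
      intro e he
      refine card_bij (fun a _ => (B.h e, p e a.2)) ?_ ?_ ?_
      · rintro ⟨v, i⟩ ha
        obtain ⟨h1, h2⟩ := mem_filter.1 ha
        simp only at h2
        subst h2
        exact mem_filter.2 ⟨(hiff e he i).1 h1, rfl⟩
      · rintro ⟨v, i⟩ ha ⟨w, j⟩ hb' h
        obtain ⟨-, h1⟩ := mem_filter.1 ha
        obtain ⟨-, h2⟩ := mem_filter.1 hb'
        simp only at h1 h2
        simp only [Prod.mk.injEq, true_and] at h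
        rw [h1, h2, (p e).injective h]
      · rintro ⟨w, j⟩ hb'
        obtain ⟨h1, h2⟩ := mem_filter.1 hb'
        simp only at h2
        subst h2
        refine ⟨(B.t e, (p e).symm j), mem_filter.2 ⟨(hiff e he _).2 ?_, rfl⟩, ?_⟩
        · rw [Equiv.apply_symm_apply]
          exact h1
        · simp
    set Y : Finset V := univ.filter (fun v => c v ≠ 0) with hY
    have hmemY : ∀ v, v ∈ Y ↔ c v ≠ 0 := fun v => by rw [hY, mem_filter]; simp
    have hXY : X.card = ∑ v ∈ Y, c v := by
      rw [hX, hY, sum_filter_ne_zero]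
    have hYX : Y.card ≤ X.card := by
      rw [hXY, card_eq_sum_ones]
      exact sum_le_sum fun v hv => Nat.one_le_iff_ne_zero.2 ((hmemY v).1 hv)
    have hcutF : B.cut Y ∩ F = ∅ := by
      rw [eq_empty_iff_forall_notMem]
      intro e he
      obtain ⟨h1, h2⟩ := mem_inter.1 he
      rw [OrGraph.cut, mem_filter] at h1
      apply h1.2
      rw [hmemY, hmemY, hcF e h2]
    have hand1 := B.handshake F Y
    rw [hcutF, card_empty, add_zero, sum_congr rfl (fun v _ => hF v), sum_const, smul_eq_mul] at hand1
    have hand2 := B.handshake univ Y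
    rw [inter_univ, sum_congr rfl (fun v _ => hc v), sum_const, smul_eq_mul] at hand2
    have hle : (F.filter (fun e => B.t e ∈ Y ∧ B.h e ∈ Y)).card ≤
        (univ.filter (fun e => B.t e ∈ Y ∧ B.h e ∈ Y)).card :=
      card_le_card (filter_subset_filter _ (subset_univ _))
    have hne1 := B.cut_card_ne_one hb Y
    have hne3 : (B.cut Y).card ≠ 3 := by
      intro h
      have := h3 Y h
      rw [hcutF] at this
      exact not_nonempty_empty this
    obtain ⟨k, hk⟩ := hodd
    have hY0 : Y.card ≠ 0 := by
      intro h0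
      rw [card_eq_zero] at h0
      rw [h0, sum_empty] at hXY
      omega
    have hY2 : Y.card = 2 := by omega
    -- an edge of the 2-factor inside
    have hpos : 0 < (F.filter (fun e => B.t e ∈ Y ∧ B.h e ∈ Y)).card := by omega
    obtain ⟨e, he⟩ := card_pos.1 hpos
    obtain ⟨heF, het, heh⟩ := mem_filter.1 he
    have hl := noloop B hc hb e
    have hYe : Y = {B.t e, B.h e} := by
      symm
      apply eq_of_subset_of_card_le
      · intro v hv
        rcases mem_insert.1 hv with rfl | hv
        · exact het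
        · rw [mem_singleton.1 hv]
          exact heh
      · rw [hY2, card_pair hl]
    rw [hYe, sum_pair hl, hcF e heF] at hXY
    omega

end Pool.Agent.N622.LF
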